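import Pool.Agent.Lib.helper8.Kneser2
set_option autoImplicit false
open Finset Pool.Agent.Lib.helper8.Kneser
open scoped Pointwise
namespace Pool.Agent.H.MP_4e78b4_co

def I {n : ℕ} (x : ZMod n) (a : ℕ) : Finset (ZMod n) := (range a).image fun u : ℕ => x + u

lemma mI {n : ℕ} {x z : ZMod n} {a : ℕ} : z ∈ I x a ↔ ∃ u < a, x + (u : ℕ) = z := by simp [I]

lemma I_add {n : ℕ} (x y : ZMod n) (a b : ℕ) : I x (a + 1) + I y (b + 1) = I (x + y) (a + b + 1) := by
  ext z
  simp only [mem_add, mI]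
  constructor
  · rintro ⟨_, ⟨u, hu, rfl⟩, _, ⟨v, hv, rfl⟩, rfl⟩
    exact ⟨u + v, by omega, by push_cast; ring⟩
  · rintro ⟨w, hw, rfl⟩
    refine ⟨_, ⟨min w a, by omega, rfl⟩, _, ⟨w - min w a, by omega, rfl⟩, ?_⟩
    rw [Nat.cast_sub (min_le_left _ _)]; ring

lemma I_sum {n : ℕ} (x : ZMod n) (a c m : ℕ) :
    m • (I x (a + 1) + I 0 (c + 1)) + I x (a + 1) = I (((m : ZMod n) + 1) * x) ((m + 1) * a + m * c + 1) := by
  induction m with
  | zero => simp
  | succ m ih =>
    rw [succ_nsmul, add_right_comm, ih, I_add, I_add]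
    congr 1
    · push_cast; ring
    · ring

lemma kn {G : Type} [AddCommGroup G] [Fintype G] [DecidableEq G] {X B : Finset G} (hX : X.Nonempty)
    (hB : B.Nonempty) (m : ℕ) (h : st (m • B + X) ⊆ {0}) :
    m * B.card + X.card ≤ (m • B + X).card + m := by
  induction m with
  | zero => simp
  | succ m ih =>
    rw [succ_nsmul, add_right_comm] at h ⊢
    have h1 := ih ((st_mono _ _).trans h)
    have h2 := kneser (m • B + X) B (hB.nsmul.add hX) hB
    have h3 := card_le_card (sub_add (st_sub (m • B + X + B)) (m • B + X))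
    have h4 := card_le_card (sub_add (st_sub (m • B + X + B)) B)
    have h5 := card_le_card h
    rw [card_singleton] at h5
    rw [add_mul]; omega

lemma sub2 {n : ℕ} (X : Finset (ZMod n)) : X ⊆ X + I 0 2 := fun z hz =>
  mem_add.2 ⟨z, hz, 0, mI.2 ⟨0, by omega, by simp⟩, by simp⟩

lemma succ2 {n : ℕ} {X : Finset (ZMod n)} {z : ZMod n} (hz : z ∈ X) : z + 1 ∈ X + I 0 2 :=
  add_mem_add hz (mI.2 ⟨1, by omega, by simp⟩)

lemma grow {n : ℕ} [NeZero n] {X : Finset (ZMod n)} (hX : X.Nonempty) (h : X ≠ univ) :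
    X.card + 1 ≤ (X + I 0 2).card := by
  by_contra c
  have e := eq_of_subset_of_card_le (sub2 X) (by omega)
  obtain ⟨x, hx⟩ := hX
  have k (u : ℕ) : x + u ∈ X := by
    induction u with
    | zero => simpa using hx
    | succ u ih => rw [Nat.cast_succ, ← add_assoc, e]; exact succ2 ih
  exact h (eq_univ_of_forall fun z => by simpa using k (z - x).val)

lemma growc {n : ℕ} [NeZero n] {X : Finset (ZMod n)} (hX : X.Nonempty) (c : ℕ) :
    X + I 0 (c + 2) = univ ∨ (X + I 0 2).card + c ≤ (X + I 0 (c + 2)).card := by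
  induction c with
  | zero => simp
  | succ c ih =>
    have e : X + I 0 (c + 1 + 2) = X + I 0 (c + 2) + I 0 2 := by
      rw [add_assoc X, I_add, add_zero]
    rw [e]
    by_cases u : X + I 0 (c + 2) = univ
    · exact Or.inl (univ_subset_iff.1 (u ▸ sub2 _))
    · have := grow (hX.add ⟨0, mI.2 ⟨0, by omega, by simp⟩⟩) u
      have := ih.resolve_left u
      right; omega

lemma intv {n : ℕ} [NeZero n] {X : Finset (ZMod n)} (hX : X.Nonempty) (h : X ≠ univ)
    (c : (X + I 0 2).card ≤ X.card + 1) : ∃ x, I x X.card ⊆ X := by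
  have g := grow hX h
  obtain ⟨y, hy⟩ := card_eq_one.1 (show ((X + I 0 2) \ X).card = 1 by
    rw [card_sdiff_of_subset (sub2 X)]; omega)
  have y1 : y ∉ X := (mem_sdiff.1 (hy ▸ mem_singleton_self y : y ∈ _ \ X)).2
  have s (z) (hz : z ∈ X) (e : z + 1 ≠ y) : z + 1 ∈ X := by
    by_contra q
    exact e (mem_singleton.1 (hy ▸ mem_sdiff.2 ⟨succ2 hz, q⟩))
  obtain ⟨z, hz, mx⟩ := exists_max_image X (fun z => (y - z).val) hX
  have c1 : X.card ≤ (y - z).val := by
    rw [← add_tsub_cancel_right (y - z).val 1, ← Nat.card_Icc]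
    refine card_le_card_of_injOn (fun z => (y - z).val) (fun w hw => ?_) fun a _ b _ e => ?_
    · refine mem_coe.2 (mem_Icc.2 ⟨Nat.pos_of_ne_zero fun e => y1 ?_, mx w hw⟩)
      rwa [sub_eq_zero.1 ((ZMod.val_eq_zero _).1 e)]
    · simpa using ZMod.val_injective n e
  have k (u : ℕ) (hu : u < (y - z).val) : z + u ∈ X := by
    induction u with
    | zero => simpa using hz
    | succ u ih =>
      rw [Nat.cast_succ, ← add_assoc]
      refine s _ (ih (by omega)) fun e => ?_
      have e2 : y - z = ((u + 1 : ℕ) : ZMod n) := by rw [← e]; push_cast; ring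
      have := ZMod.val_lt (y - z)
      rw [e2, ZMod.val_natCast] at hu
      exact absurd (Nat.mod_le (u + 1) n) (by omega)
  refine ⟨z, fun w hw => ?_⟩
  obtain ⟨u, hu, rfl⟩ := mI.1 hw
  exact k u (by omega)

def Good (k l c n i : ℕ) : Prop := ∃ x j : ℤ,
  (l + 1) * i + l * c ≤ (k - l) * x - j * n ∧ (k - l) * x - j * n ≤ n - (k + 1) * i - k * c

lemma ub (k l c : ℕ) (h : l < k) (n : ℕ) : ∀ [NeZero n] (A : Finset (ZMod n)), A.Nonempty →
    Disjoint (k • (A + I 0 (c + 2)) + A) (l • (A + I 0 (c + 2)) + A) → Good k l c n A.card := by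
  induction n using Nat.strong_induction_on with
  | _ n ih =>
  intro _ A hA hd
  have n0 : 0 < n := Nat.pos_of_ne_zero (NeZero.ne n)
  have hB : (A + I 0 (c + 2)).Nonempty := hA.add ⟨0, mI.2 ⟨0, by omega, by simp⟩⟩
  have red (H : Finset (ZMod n)) (sH : IsSub H) (g) (hg : g ∈ H) (g0 : g ≠ 0)
      (w : ∀ x ∈ k • (A + I 0 (c + 2)) + A, ∀ y ∈ l • (A + I 0 (c + 2)) + A, x - y ∉ H) :
      Good k l c n A.card := by
    obtain ⟨d, hd⟩ : ∃ d, d = Nat.gcd g.val n := ⟨_, rfl⟩
    have d1 : d ∣ n := hd ▸ Nat.gcd_dvd_right _ _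
    have d2 : d < n := (hd ▸ Nat.gcd_le_left _ (ZMod.val_pos.2 g0)).trans_lt (ZMod.val_lt g)
    have d3 : NeZero d := ⟨by rintro rfl; simp at d1; omega⟩
    have m1 (u : ℕ) (z) (hz : z ∈ H) : u * z ∈ H := by
      induction u with
      | zero => simpa using sH.zero
      | succ u ih => rw [Nat.cast_succ, add_mul, one_mul]; exact sH.add ih hz
    have m2 : (d : ZMod n) ∈ H := by
      have e := congrArg (Int.cast : ℤ → ZMod n) (Nat.gcd_eq_gcd_ab g.val n)
      rw [← hd] at e
      have := m1 (Nat.gcdA g.val n : ZMod n).val g hg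
      simp at e this
      rwa [e, mul_comm]
    let φ := ZMod.castHom d1 (ZMod d)
    have hI : (I 0 (c + 2)).image φ = I 0 (c + 2) := by
      simp only [I, image_image]
      exact image_congr fun u _ => by simp only [Function.comp, map_add, map_zero, map_natCast]
    have im (m : ℕ) : m • (A.image φ + I 0 (c + 2)) + A.image φ =
        (m • (A + I 0 (c + 2)) + A).image φ := by
      rw [image_add, image_nsmul, image_add, hI]
    obtain ⟨x, j, a1, a2⟩ := ih d d2 (A.image φ) (hA.image φ) (by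
      rw [im, im, disjoint_left]
      intro z h1 h2
      obtain ⟨x, hx, rfl⟩ := mem_image.1 h1
      obtain ⟨y, hy, e⟩ := mem_image.1 h2
      refine w x hx y hy ?_
      have e2 : φ (x - y) = 0 := by rw [map_sub, e, sub_self]
      rw [ZMod.castHom_apply, ZMod.cast_eq_val, ZMod.natCast_eq_zero_iff] at e2
      obtain ⟨u, hu⟩ := e2
      rw [← ZMod.natCast_zmod_val (x - y), hu, Nat.cast_mul, mul_comm]
      exact m1 u _ m2)
    obtain ⟨e, he⟩ := d1
    have e0 : 1 ≤ e := Nat.pos_of_ne_zero (by rintro rfl; omega)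
    have cd : A.card ≤ e * (A.image φ).card := by
      refine card_le_mul_card_image _ _ fun b _ => ?_
      have := card_lift (n := n) he (S := {b.val}) (by simpa using ZMod.val_lt b)
      rw [card_singleton, one_mul] at this
      refine (card_le_card fun z hz => ?_).trans this.le
      rw [mem_lift, mem_singleton, ← (mem_filter.1 hz).2, ZMod.castHom_apply, ZMod.cast_eq_val,
        ZMod.val_natCast]
    generalize (A.image φ).card = i at a1 a2 cd
    have cd' : (A.card : ℤ) ≤ e * i := by exact_mod_cast cd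
    have e1 : (0 : ℤ) ≤ e - 1 := by omega
    have he' : (n : ℤ) = d * e := by exact_mod_cast he
    refine ⟨e * x, j, ?_, ?_⟩ <;> rw [he']
    · nlinarith [mul_le_mul_of_nonneg_left a1 (Int.natCast_nonneg e),
        mul_nonneg e1 (show (0 : ℤ) ≤ l * c by positivity),
        mul_le_mul_of_nonneg_left cd' (show (0 : ℤ) ≤ l + 1 by positivity)]
    · nlinarith [mul_le_mul_of_nonneg_left a2 (Int.natCast_nonneg e),
        mul_nonneg e1 (show (0 : ℤ) ≤ k * c by positivity),
        mul_le_mul_of_nonneg_left cd' (show (0 : ℤ) ≤ k + 1 by positivity)]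
  by_cases s1 : st (k • (A + I 0 (c + 2)) + A) ⊆ {0}
  swap
  · obtain ⟨g, hg, g0⟩ := not_subset.1 s1
    refine red _ (st_sub _) g hg (by simpa using g0) fun x hx y hy q => ?_
    exact disjoint_left.1 hd (by simpa using mem_st.1 ((st_sub _).neg q) x hx) hy
  by_cases s2 : st (l • (A + I 0 (c + 2)) + A) ⊆ {0}
  swap
  · obtain ⟨g, hg, g0⟩ := not_subset.1 s2
    refine red _ (st_sub _) g hg (by simpa using g0) fun x hx y hy q => ?_
    exact disjoint_left.1 hd hx (by simpa using mem_st.1 q y hy)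
  have nu : A + I 0 (c + 2) ≠ univ := by
    intro e
    obtain ⟨k, rfl⟩ := Nat.exists_eq_add_of_lt h
    obtain ⟨y, hy⟩ := (hB.nsmul (n := l)).add hA
    obtain ⟨x, hx⟩ := (hB.nsmul (n := l + k)).add hA
    refine disjoint_left.1 hd ?_ hy
    rw [succ_nsmul, add_right_comm]
    exact mem_add.2 ⟨x, hx, y - x, e ▸ mem_univ _, by simp⟩
  have b1 := (growc hA c).resolve_left nu
  by_cases q : (A + I 0 2).card ≤ A.card + 1
  · obtain ⟨x, hx⟩ := intv hA (by
      rintro rfl
      exact nu (eq_univ_of_forall fun z =>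
        mem_add.2 ⟨z, mem_univ _, 0, mI.2 ⟨0, by omega, by simp⟩, by simp⟩)) q
    obtain ⟨a, ha⟩ := Nat.exists_eq_add_of_le' hA.card_pos
    rw [ha] at hx ⊢
    have mono (m : ℕ) : I (((m : ZMod n) + 1) * x) ((m + 1) * a + m * (c + 1) + 1) ⊆
        m • (A + I 0 (c + 2)) + A := by
      rw [← I_sum]
      exact add_subset_add (nsmul_subset_nsmul_left (add_subset_add_right hx)) hx
    have dj (u v : ℕ) (hu : u < (k + 1) * a + k * (c + 1) + 1) (hv : v < (l + 1) * a + l * (c + 1) + 1) :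
        ((k : ZMod n) - l) * x + u ≠ v := fun e =>
      disjoint_left.1 hd (mono k (mI.2 ⟨u, hu, rfl⟩)) (mono l (mI.2 ⟨v, hv, by
        rw [← e]; push_cast; ring⟩))
    obtain ⟨t, ht⟩ : ∃ t, t = (((k : ZMod n) - l) * x).val := ⟨_, rfl⟩
    have t1 : t < n := ht ▸ ZMod.val_lt _
    have t2 : (t : ZMod n) = ((k : ZMod n) - l) * x := by rw [ht, ZMod.natCast_zmod_val]
    have t3 : ¬t < (l + 1) * a + l * (c + 1) + 1 := fun w => dj 0 t (by omega) w (by simp [t2])
    have t4 : ¬n - t < (k + 1) * a + k * (c + 1) + 1 := fun w => dj _ 0 w (by omega) (by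
      rw [Nat.cast_sub t1.le, t2]; simp)
    obtain ⟨j, hj⟩ : (n : ℤ) ∣ (k - l) * x.val - t := by
      rw [← ZMod.intCast_zmod_eq_zero_iff_dvd]
      push_cast
      rw [t2, ZMod.natCast_zmod_val, sub_self]
    have t5 : ((k + 1) * a + k * (c + 1) + 1 + t : ℕ) ≤ n := by omega
    have t6 : ((l + 1) * a + l * (c + 1) + 1 : ℕ) ≤ t := by omega
    zify at t5 t6
    refine ⟨x.val, j, ?_, ?_⟩ <;> push_cast <;> nlinarith
  · have k1 := kn hA hB k s1
    have k2 := kn hA hB l s2
    have k3 := card_le_univ (k • (A + I 0 (c + 2)) + A ∪ (l • (A + I 0 (c + 2)) + A))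
    rw [card_union_of_disjoint hd, ZMod.card] at k3
    have b2 : A.card + 2 + c ≤ (A + I 0 (c + 2)).card := by omega
    have k4 := Nat.mul_le_mul_left k b2
    have k5 := Nat.mul_le_mul_left l b2
    have k6 : k * (A.card + 2 + c) + A.card + l * (A.card + 2 + c) + A.card ≤ n + k + l := by omega
    zify at k6
    have p : (0 : ℤ) < k - l := by omega
    have r1 := Int.emod_add_mul_ediv ((n : ℤ) - (k + 1) * A.card - k * c) (k - l)
    have r2 := Int.emod_nonneg ((n : ℤ) - (k + 1) * A.card - k * c) p.ne'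
    have r3 := Int.emod_lt_of_pos ((n : ℤ) - (k + 1) * A.card - k * c) p
    refine ⟨((n : ℤ) - (k + 1) * A.card - k * c) / (k - l), 0, ?_, ?_⟩ <;>
      nlinarith [Int.natCast_nonneg l]

end Pool.Agent.H.MP_4e78b4_co
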